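import Pool.Agent.helper84.NR.AllW

/-!
MP_133bfc_co : on a surface of Euler characteristic at least -1, any two vertices are joined by a path
revisiting no face which contains one of them.
-/

set_option autoImplicit false

namespace Pool.Agent.Results.MP_133bfc_co.FacesAtEnds

open Pool.Agent.helper84.NR

/-- Let `M` be a polyhedral map on a closed surface of Euler characteristic at least -1 (for example
on the nonorientable surface of genus 3, the only closed surface of Euler characteristic -1). Any two
vertices `x`, `y` are joined by a path which revisits no face containing `x` or `y`. -/
theorem result (V F : Type) [Fintype V] [Fintype F] (M : PMap V F) (hM : -1 ≤ chi M.toCyc)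
    (x y : V) : NRXY M.toCyc x y :=
  h_FINW V F M hM x y

end Pool.Agent.Results.MP_133bfc_co.FacesAtEnds
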