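import Pool.Agent.helper24.NRU.Main

/-!
MP_133bfc_co : nonrevisiting paths between vertices with meeting faces, on surfaces of Euler
characteristic at least -1.
-/

set_option autoImplicit false

namespace Pool.Agent.Results.MP_133bfc_co.MeetingStars

open Pool.Agent.helper84.NR

/-- Let `M` be a polyhedral map on a closed surface of Euler characteristic at least -1 (for example
on the nonorientable surface of genus 3, the only closed surface of Euler characteristic -1) and `x`,
`y` two vertices.

(1) If some face containing `x` meets some face containing `y`, then `x` and `y` are joined by a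
nonrevisiting path, or there are faces `A` containing `x`, `B` containing `y` and `g` containing
neither, any two of which meet, without a vertex common to all three, and `A` contains a neighbour `s`
of `x` which is on no face containing `y`, and `B` contains a neighbour `t` of `y` which is on no face
containing `x`.

(2) If every neighbour of `x` lies on a face containing `y`, then `x` and `y` are joined by a
nonrevisiting path. -/
theorem result (V F : Type) [Fintype V] [Fintype F] (M : PMap V F) (hM : -1 ≤ chi M.toCyc)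
    (x y : V) :
    ((∃ A B v, OnV M.toCyc A x ∧ OnV M.toCyc B y ∧ OnV M.toCyc A v ∧ OnV M.toCyc B v) →
      NRPath M.toCyc x y ∨
      ∃ A B g, OnV M.toCyc A x ∧ OnV M.toCyc B y ∧ ¬ OnV M.toCyc g x ∧ ¬ OnV M.toCyc g y ∧
        (∃ u, OnV M.toCyc A u ∧ OnV M.toCyc B u) ∧
        (∃ u, OnV M.toCyc A u ∧ OnV M.toCyc g u) ∧
        (∃ u, OnV M.toCyc B u ∧ OnV M.toCyc g u) ∧
        (¬ ∃ u, OnV M.toCyc A u ∧ OnV M.toCyc B u ∧ OnV M.toCyc g u) ∧
        (∃ s, Adj M.toCyc x s ∧ OnV M.toCyc A s ∧ ¬ ∃ f, OnV M.toCyc f y ∧ OnV M.toCyc f s) ∧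
        (∃ t, Adj M.toCyc y t ∧ OnV M.toCyc B t ∧ ¬ ∃ f, OnV M.toCyc f x ∧ OnV M.toCyc f t)) ∧
    ((∀ s, Adj M.toCyc x s → ∃ f, OnV M.toCyc f s ∧ OnV M.toCyc f y) → NRPath M.toCyc x y) :=
  ⟨U_FIN V F M hM x y, h_FIN V F M hM x y⟩

end Pool.Agent.Results.MP_133bfc_co.MeetingStars
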